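import Mathlib
import Pool.Agent.U581.LB.Stm

/-!
# Project LB, package TIGHT: a maximal inequality and the tightness of polygonal paths
-/

set_option autoImplicit false

namespace Pool.Agent.U293.LB.TIGHT

open Real MeasureTheory Filter Topology Pool.Agent.U581.BM Pool.Agent.U581.LB

/-- the running maximum of the fourth powers of the increments -/
noncomputable def mx {Ω : Type} (S : ℕ → Ω → ℝ) (a : ℕ) : ℕ → Ω → ℝ
  | 0 => fun _ => 0
  | n + 1 => fun ω => max (mx S a n ω) ((S (a + (n + 1)) ω - S a ω) ^ 4)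

theorem le_mx {Ω : Type} (S : ℕ → Ω → ℝ) (a : ℕ) (ω : Ω) : ∀ n k : ℕ, k ≤ n →
    (S (a + k) ω - S a ω) ^ 4 ≤ mx S a n ω
  | 0, k, hk => by
    obtain rfl : k = 0 := by omega
    simp [mx]
  | n + 1, k, hk => by
    rcases Nat.lt_or_ge n k with h | h
    · obtain rfl : k = n + 1 := by omega
      exact le_max_right _ _
    · exact (le_mx S a ω n k h).trans (le_max_left _ _)

theorem mx_le {Ω : Type} (S : ℕ → Ω → ℝ) (a : ℕ) (ω : Ω) {B : ℝ} (hB : 0 ≤ B) : ∀ n : ℕ,
    (∀ k ≤ n, (S (a + k) ω - S a ω) ^ 4 ≤ B) → mx S a n ω ≤ B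
  | 0, _ => hB
  | n + 1, h => max_le (mx_le S a ω hB n fun k hk => h k (by omega)) (h (n + 1) le_rfl)

theorem mx_nonneg {Ω : Type} (S : ℕ → Ω → ℝ) (a n : ℕ) (ω : Ω) : 0 ≤ mx S a n ω := by
  have := le_mx S a ω n 0 (Nat.zero_le _)
  simpa using this

theorem four (x y : ℝ) : (x + y) ^ 4 ≤ 5 / 4 * y ^ 4 + 4913 * x ^ 4 := by
  have h1 : (x + y) ^ 2 ≤ 17 * x ^ 2 + 17 / 16 * y ^ 2 := by
    nlinarith [sq_nonneg (y / 4 - 4 * x)]
  have h2 : (17 * x ^ 2 + 17 / 16 * y ^ 2) ^ 2 ≤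
      17 / 16 * (17 / 16 * y ^ 2) ^ 2 + 17 * (17 * x ^ 2) ^ 2 := by
    nlinarith [sq_nonneg ((17 / 16 * y ^ 2) / 4 - 4 * (17 * x ^ 2))]
  have h3 : (x + y) ^ 4 = ((x + y) ^ 2) ^ 2 := by ring
  have h4 : ((x + y) ^ 2) ^ 2 ≤ (17 * x ^ 2 + 17 / 16 * y ^ 2) ^ 2 :=
    pow_le_pow_left₀ (sq_nonneg _) h1 2
  have h5 : 17 / 16 * (17 / 16 * y ^ 2) ^ 2 + 17 * (17 * x ^ 2) ^ 2 =
      4913 / 4096 * y ^ 4 + 4913 * x ^ 4 := by ring
  have h6 : 0 ≤ y ^ 4 := by positivity
  rw [h3]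
  linarith

theorem mx_split {Ω : Type} (S : ℕ → Ω → ℝ) (a : ℕ) (ω : Ω) {m n : ℕ} :
    mx S a n ω ≤ mx S a m ω + (5 / 4 * mx S (a + m) (n - m) ω +
      4913 * (S (a + m) ω - S a ω) ^ 4) := by
  have n1 := mx_nonneg S a m ω
  have n2 := mx_nonneg S (a + m) (n - m) ω
  have n3 : 0 ≤ (S (a + m) ω - S a ω) ^ 4 := by positivity
  refine mx_le S a ω (by positivity) n fun k hk => ?_
  rcases le_total k m with h | h
  · have := le_mx S a ω m k h
    linarith
  · have h1 := le_mx S (a + m) ω (n - m) (k - m) (by omega)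
    have e : a + m + (k - m) = a + k := by omega
    rw [e] at h1
    have h2 := four (S (a + m) ω - S a ω) (S (a + k) ω - S (a + m) ω)
    have h3 : S (a + m) ω - S a ω + (S (a + k) ω - S (a + m) ω) = S (a + k) ω - S a ω := by ring
    rw [h3] at h2
    linarith

theorem f_ineq {p q x : ℝ} (hp : 0 ≤ p) (hq : 0 ≤ q) (hpq : p + q = x) (hp2 : p ≤ x / 2)
    (hq2 : q ≤ 2 * x / 3) : p * √p + 5 / 4 * (q * √q) ≤ 23 / 25 * (x * √x) ∧
      p * √p ≤ x * √x := by
  have hx : 0 ≤ x := by linarith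
  have hs := Real.sqrt_nonneg x
  have hss : √x * √x = x := Real.mul_self_sqrt hx
  have h1 : √p ≤ 71 / 100 * √x := by
    rw [Real.sqrt_le_iff]
    refine ⟨by positivity, ?_⟩
    have : (71 / 100 * √x) ^ 2 = 5041 / 10000 * (√x * √x) := by ring
    rw [this, hss]
    linarith
  have h2 : √q ≤ 82 / 100 * √x := by
    rw [Real.sqrt_le_iff]
    refine ⟨by positivity, ?_⟩
    have : (82 / 100 * √x) ^ 2 = 6724 / 10000 * (√x * √x) := by ring
    rw [this, hss]
    linarith
  have h3 : p * √p ≤ p * (71 / 100 * √x) := mul_le_mul_of_nonneg_left h1 hp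
  have h4 : q * √q ≤ q * (82 / 100 * √x) := mul_le_mul_of_nonneg_left h2 hq
  have h5 : q * √x ≤ 2 * x / 3 * √x := mul_le_mul_of_nonneg_right hq2 hs
  have h6 : p * √x + q * √x = x * √x := by rw [← hpq]; ring
  have h7 : 0 ≤ q * √x := mul_nonneg hq hs
  have h8 : 0 ≤ p * √x := mul_nonneg hp hs
  constructor
  · nlinarith
  · nlinarith

section prob

variable {Ω : Type} [MeasurableSpace Ω] {P : Measure Ω} [IsProbabilityMeasure P]
  {S : ℕ → Ω → ℝ}

theorem inc_int (hS : ∀ i, Measurable (S i)) (hB : ∀ i, ∃ B : ℝ, ∀ ω, |S i ω| ≤ B) (i j : ℕ) :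
    Integrable (fun ω => (S j ω - S i ω) ^ 4) P := by
  obtain ⟨B1, h1⟩ := hB i
  obtain ⟨B2, h2⟩ := hB j
  refine Integrable.of_bound (((hS j).sub (hS i)).pow_const 4).aestronglyMeasurable
    ((B2 + B1) ^ 4) (ae_of_all _ fun ω => ?_)
  rw [Real.norm_eq_abs, abs_pow]
  refine pow_le_pow_left₀ (abs_nonneg _) ?_ 4
  exact (abs_sub _ _).trans (add_le_add (h2 ω) (h1 ω))

theorem mx_int (hS : ∀ i, Measurable (S i)) (hB : ∀ i, ∃ B : ℝ, ∀ ω, |S i ω| ≤ B) (a : ℕ) :
    ∀ n : ℕ, Integrable (mx S a n) P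
  | 0 => integrable_zero _ _ _
  | n + 1 => (mx_int hS hB a n).sup (inc_int hS hB a (a + (n + 1)))

/-- the maximal inequality -/
theorem maxi (hS : ∀ i, Measurable (S i)) (hB : ∀ i, ∃ B : ℝ, ∀ ω, |S i ω| ≤ B) {M : ℕ}
    (hM : 0 < M) {K : ℝ} (hK : 0 ≤ K)
    (h : ∀ i j : ℕ, i ≤ j → j ≤ M → ∫ ω, (S j ω - S i ω) ^ 4 ∂P ≤
      K * ((((j : ℝ) - i) / M) * √(((j : ℝ) - i) / M))) (n : ℕ) :
    ∀ a : ℕ, a + n ≤ M → ∫ ω, mx S a n ω ∂P ≤ 100000 * K * (((n : ℝ) / M) * √((n : ℝ) / M)) := by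
  have hM' : (0 : ℝ) < M := by exact_mod_cast hM
  induction n using Nat.strong_induction_on with
  | _ n ih =>
    intro a ha
    rcases Nat.lt_or_ge n 2 with hn | hn
    · interval_cases n
      · simp [mx]
      · have h1 := h a (a + 1) (by omega) ha
        have e1 : (((a + 1 : ℕ) : ℝ) - a) / M = 1 / M := by push_cast; ring
        rw [e1] at h1
        have e2 : ∫ ω, mx S a 1 ω ∂P = ∫ ω, (S (a + 1) ω - S a ω) ^ 4 ∂P := by
          congr 1
          funext ω
          change max (0 : ℝ) ((S (a + (0 + 1)) ω - S a ω) ^ 4) = _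
          rw [max_eq_right (by positivity)]
        rw [e2]
        refine h1.trans ?_
        have h2 : 0 ≤ K * ((1 : ℝ) / M * √(1 / M)) := by positivity
        push_cast
        nlinarith
    · obtain ⟨m, hm⟩ : ∃ m, m = n / 2 := ⟨_, rfl⟩
      have hm1 : 0 < m := by omega
      have hmn : m < n := by omega
      have i1 := ih m hmn a (by omega)
      have i2 := ih (n - m) (by omega) (a + m) (by omega)
      have i3 := h a (a + m) (by omega) (by omega)
      have e1 : (((a + m : ℕ) : ℝ) - a) / M = m / M := by push_cast; ring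
      rw [e1] at i3
      have key : ∫ ω, mx S a n ω ∂P ≤ ∫ ω, mx S a m ω ∂P + (5 / 4 * ∫ ω, mx S (a + m) (n - m) ω ∂P +
          4913 * ∫ ω, (S (a + m) ω - S a ω) ^ 4 ∂P) := by
        have j1 := mx_int (P := P) hS hB a m
        have j2 := (mx_int (P := P) hS hB (a + m) (n - m)).const_mul (5 / 4)
        have j3 := (inc_int (P := P) hS hB a (a + m)).const_mul 4913
        have j23 : Integrable (fun ω => 5 / 4 * mx S (a + m) (n - m) ω +
            4913 * (S (a + m) ω - S a ω) ^ 4) P := j2.add j3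
        have j4 : ∫ ω, mx S a n ω ∂P ≤ ∫ ω, (mx S a m ω + (5 / 4 * mx S (a + m) (n - m) ω +
            4913 * (S (a + m) ω - S a ω) ^ 4)) ∂P :=
          integral_mono (mx_int hS hB a n) (j1.add j23) fun ω => mx_split S a ω
        refine j4.trans (le_of_eq ?_)
        rw [integral_add j1 j23, integral_add j2 j3, integral_const_mul,
          integral_const_mul]
      have hr : ((n - m : ℕ) : ℝ) = n - m := by rw [Nat.cast_sub hmn.le]
      have hm2 : (m : ℝ) ≤ n / 2 := by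
        rw [le_div_iff₀ (by norm_num)]
        exact_mod_cast (by omega : m * 2 ≤ n)
      have hr2 : ((n - m : ℕ) : ℝ) ≤ 2 * n / 3 := by
        rw [le_div_iff₀ (by norm_num)]
        exact_mod_cast (by omega : (n - m) * 3 ≤ 2 * n)
      obtain ⟨f1, f2⟩ := f_ineq (p := (m : ℝ) / M) (q := ((n - m : ℕ) : ℝ) / M)
        (x := (n : ℝ) / M) (by positivity) (by positivity)
        (by rw [hr, ← add_div]; congr 1; ring)
        (by
          rw [div_right_comm]
          exact div_le_div_of_nonneg_right hm2 hM'.le)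
        (by
          have : 2 * ((n : ℝ) / M) / 3 = 2 * n / 3 / M := by ring
          rw [this]
          exact div_le_div_of_nonneg_right hr2 hM'.le)
      have f3 := mul_le_mul_of_nonneg_left f1 hK
      have f4 := mul_le_mul_of_nonneg_left f2 hK
      have f5 : 0 ≤ K * ((n : ℝ) / M * √((n : ℝ) / M)) := by positivity
      linarith

end prob

theorem rpow_three {x : ℝ} (hx : 0 ≤ x) : x ^ (3 / 2 : ℝ) = x * √x := by
  rw [Real.sqrt_eq_rpow]
  rcases eq_or_lt_of_le hx with h | h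
  · rw [← h]
    rw [Real.zero_rpow (by norm_num)]
    ring
  · nth_rewrite 2 [← Real.rpow_one x]
    rw [← Real.rpow_add h]
    norm_num

/-- the polygon on a block -/
theorem poly_block {M N : ℕ} (hM : 0 < M) (c : ℕ → ℝ) {i : ℕ} (hN : 0 < N)
    (hi : i < N) {δ : ℝ}
    (hc : ∀ k ≤ min ((i + 1) * M / N + 1) M - i * M / N, |c (i * M / N + k) - c (i * M / N)| ≤ δ)
    (t : unitInterval) (h1 : (i : ℝ) ≤ N * t) (h2 : (N : ℝ) * t ≤ i + 1) :
    |polygon M c t - c (i * M / N)| ≤ δ := by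
  have hM' : (0 : ℝ) < M := by exact_mod_cast hM
  have hN' : (0 : ℝ) < N := by exact_mod_cast hN
  have ht0 := t.2.1
  have ht1 := t.2.2
  have ha : i * M / N + 1 ≤ M := by
    have h3 : i * M / N < M := by
      rw [Nat.div_lt_iff_lt_mul hN]
      calc i * M < N * M := Nat.mul_lt_mul_of_pos_right hi hM
        _ = M * N := Nat.mul_comm _ _
    omega
  have hfl1 : i * M / N ≤ ⌊(M : ℝ) * t⌋₊ := by
    apply Nat.le_floor
    have h3 : ((i * M / N : ℕ) : ℝ) ≤ (i * M : ℕ) / (N : ℝ) := Nat.cast_div_le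
    refine h3.trans ?_
    rw [div_le_iff₀ hN']
    push_cast
    nlinarith
  have hfl2 : ⌊(M : ℝ) * t⌋₊ ≤ (i + 1) * M / N := by
    rw [Nat.le_div_iff_mul_le hN]
    have h3 : ((⌊(M : ℝ) * t⌋₊ : ℕ) : ℝ) ≤ M * t := Nat.floor_le (by positivity)
    have h4 : ((⌊(M : ℝ) * t⌋₊ * N : ℕ) : ℝ) ≤ ((i + 1) * M : ℕ) := by
      push_cast
      nlinarith
    exact_mod_cast h4
  obtain ⟨m, hm⟩ : ∃ m, m = min ⌊(M : ℝ) * t⌋₊ (M - 1) := ⟨_, rfl⟩
  have hmM : m < M := by omega
  have hma : i * M / N ≤ m := by omega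
  have hmb : m + 1 ≤ min ((i + 1) * M / N + 1) M := by omega
  have hm1 : (m : ℝ) ≤ M * t := by
    have h3 : ((⌊(M : ℝ) * t⌋₊ : ℕ) : ℝ) ≤ M * t := Nat.floor_le (by positivity)
    have h4 : (m : ℝ) ≤ (⌊(M : ℝ) * t⌋₊ : ℕ) := by exact_mod_cast (by omega : m ≤ ⌊(M : ℝ) * t⌋₊)
    linarith
  have hm2 : (M : ℝ) * t ≤ m + 1 := by
    rcases le_total ⌊(M : ℝ) * t⌋₊ (M - 1) with h | h
    · have h3 : m = ⌊(M : ℝ) * t⌋₊ := by omega
      rw [h3]
      exact (Nat.lt_floor_add_one _).le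
    · have h3 : m + 1 = M := by omega
      have h4 : (m : ℝ) + 1 = M := by exact_mod_cast h3
      rw [h4]
      nlinarith
  rw [polygon_eq c t hmM hm1 hm2]
  have c1 := hc (m - i * M / N) (by omega)
  have c2 := hc (m + 1 - i * M / N) (by omega)
  rw [Nat.add_sub_cancel' hma] at c1
  rw [Nat.add_sub_cancel' (by omega : i * M / N ≤ m + 1)] at c2
  obtain ⟨s, hs⟩ : ∃ s, s = (M : ℝ) * t - m := ⟨_, rfl⟩
  rw [← hs]
  have hs0 : 0 ≤ s := by linarith
  have hs1 : s ≤ 1 := by linarith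
  rw [abs_le] at c1 c2 ⊢
  constructor <;> nlinarith [c1.1, c1.2, c2.1, c2.2]

theorem t_TIGHT : S_TIGHT := by
  intro K ε η hK hε hη
  obtain ⟨κ, hκ⟩ : ∃ κ : ℝ, κ = η * (ε / 4) ^ 4 / (300000 * K) := ⟨_, rfl⟩
  have hκ0 : 0 < κ := by rw [hκ]; positivity
  obtain ⟨N1, hN1⟩ := exists_nat_gt (3 / κ ^ 2)
  refine ⟨max N1 1, fun N hN => ⟨N, fun M hM Ω _ P _ S hS hB hmom => ?_⟩⟩
  have hNpos : 0 < N := lt_of_lt_of_le one_pos ((le_max_right _ _).trans hN)
  have hMpos : 0 < M := lt_of_lt_of_le hNpos hM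
  have hN' : (0 : ℝ) < N := by exact_mod_cast hNpos
  have hM' : (0 : ℝ) < M := by exact_mod_cast hMpos
  have hMN' : (N : ℝ) ≤ M := by exact_mod_cast hM
  have hmom' : ∀ i j : ℕ, i ≤ j → j ≤ M → ∫ ω, (S j ω - S i ω) ^ 4 ∂P ≤
      K * ((((j : ℝ) - i) / M) * √(((j : ℝ) - i) / M)) := by
    intro i j hij hj
    rw [← rpow_three]
    · exact hmom i j hij hj
    · have : (i : ℝ) ≤ j := by exact_mod_cast hij
      exact div_nonneg (by linarith) hM'.le
  obtain ⟨δ, hδ⟩ : ∃ δ : ℝ, δ = ε / 4 := ⟨_, rfl⟩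
  have hδ0 : 0 < δ := by rw [hδ]; positivity
  -- the blocks
  obtain ⟨A, hA⟩ : ∃ A : ℕ → ℕ, A = fun i => i * M / N := ⟨_, rfl⟩
  obtain ⟨L, hL⟩ : ∃ L : ℕ → ℕ, L = fun i => min ((i + 1) * M / N + 1) M - i * M / N := ⟨_, rfl⟩
  have hsub : {ω | ε < ‖polygon M (fun i => S i ω) - interp N (polygon M (fun i => S i ω))‖} ⊆
      ⋃ i ∈ Finset.range N, {ω | δ ^ 4 ≤ mx S (A i) (L i) ω} := by
    intro ω hω
    by_contra hcon
    rw [Set.mem_iUnion₂] at hcon
    push Not at hcon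
    have hω' : ε < ‖polygon M (fun i => S i ω) - interp N (polygon M (fun i => S i ω))‖ := hω
    have hbl : ∀ i < N, ∀ t : unitInterval, (i : ℝ) ≤ N * t → (N : ℝ) * t ≤ i + 1 →
        |polygon M (fun i => S i ω) t - S (A i) ω| ≤ δ := by
      intro i hi t h1 h2
      have h3 : mx S (A i) (L i) ω < δ ^ 4 := by
        by_contra h4
        push Not at h4
        exact hcon i (Finset.mem_range.2 hi) h4
      have h5 := poly_block hMpos (fun i => S i ω) hNpos hi (δ := δ) (fun k hk => ?_) t h1 h2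
      · rw [hA]; exact h5
      · have h6 : k ≤ L i := by rw [hL]; exact hk
        have h7 := (le_mx S (A i) ω (L i) k h6).trans h3.le
        have h8 : |S (A i + k) ω - S (A i) ω| ≤ δ := by
          by_contra h9
          push Not at h9
          have h10 := pow_lt_pow_left₀ h9 hδ0.le (by norm_num : 4 ≠ 0)
          rw [← abs_pow, abs_of_nonneg (by positivity)] at h10
          linarith
        rw [hA] at h8
        exact h8
    have h4 := interp_err hNpos (polygon M (fun i => S i ω)) (ε := 2 * δ) (by positivity)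
      (fun i hi t h1 h2 => by
        have e1 : (N : ℝ) * ((pt N i : unitInterval) : ℝ) = i := by
          rw [pt_val hNpos hi.le]
          field_simp
        have q1 := hbl i hi t h1 h2
        have q2 := hbl i hi (pt N i) (by rw [e1]) (by rw [e1]; linarith)
        rw [abs_le] at q1 q2 ⊢
        constructor <;> linarith [q1.1, q1.2, q2.1, q2.2])
    rw [hδ] at h4
    linarith
  have hbound : ∀ i ∈ Finset.range N, P.real {ω | δ ^ 4 ≤ mx S (A i) (L i) ω} ≤
      100000 * K * ((3 / N : ℝ) * √(3 / N)) / δ ^ 4 := by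
    intro i hi
    have hi' : i < N := Finset.mem_range.1 hi
    have hd4 : 0 < δ ^ 4 := by positivity
    have h1 := mul_meas_ge_le_integral_of_nonneg (μ := P) (f := mx S (A i) (L i))
      (ae_of_all _ fun ω => mx_nonneg S (A i) (L i) ω) (mx_int hS hB (A i) (L i)) (δ ^ 4)
    have ha : i * M / N + 1 ≤ M := by
      have h3 : i * M / N < M := by
        rw [Nat.div_lt_iff_lt_mul hNpos]
        calc i * M < N * M := Nat.mul_lt_mul_of_pos_right hi' hMpos
          _ = M * N := Nat.mul_comm _ _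
      omega
    have h2 := maxi (P := P) hS hB hMpos hK.le hmom' (L i) (A i) (by
      rw [hA, hL]
      have : min ((i + 1) * M / N + 1) M ≤ M := min_le_right _ _
      dsimp only
      omega)
    have h3 : (L i : ℝ) / M ≤ 3 / N := by
      have g1 : (((i + 1) * M / N : ℕ) : ℝ) ≤ ((i + 1) * M : ℕ) / (N : ℝ) := Nat.cast_div_le
      have g2 : ((i * M : ℕ) : ℝ) / N < (i * M / N : ℕ) + 1 := by
        rw [div_lt_iff₀ hN']
        have := Nat.lt_div_mul_add hNpos (a := i * M)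
        have h5 : i * M < (i * M / N + 1) * N := by rw [Nat.add_mul, one_mul]; exact this
        exact_mod_cast h5
      have g3 : L i + i * M / N ≤ (i + 1) * M / N + 1 := by
        rw [hL]
        dsimp only
        have h6 : min ((i + 1) * M / N + 1) M ≤ (i + 1) * M / N + 1 := min_le_left _ _
        have h7 : i * M / N ≤ (i + 1) * M / N := Nat.div_le_div_right (Nat.mul_le_mul_right _ (by omega))
        omega
      have g4 : (L i : ℝ) + (i * M / N : ℕ) ≤ ((i + 1) * M / N : ℕ) + 1 := by exact_mod_cast g3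
      have g5 : (((i + 1) * M : ℕ) : ℝ) / N - ((i * M : ℕ) : ℝ) / N = M / N := by
        push_cast
        field_simp
        ring
      have g6 : (1 : ℝ) ≤ M / N := by rw [le_div_iff₀ hN']; linarith
      have g7 : (L i : ℝ) ≤ 3 * (M / N) := by linarith
      rw [div_le_iff₀ hM']
      calc (L i : ℝ) ≤ 3 * (M / N) := g7
        _ = 3 / N * M := by ring
    have h4 : (L i : ℝ) / M * √((L i : ℝ) / M) ≤ 3 / N * √(3 / N) :=
      mul_le_mul h3 (Real.sqrt_le_sqrt h3) (Real.sqrt_nonneg _) (by positivity)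
    have h5 := mul_le_mul_of_nonneg_left h4 (by positivity : (0 : ℝ) ≤ 100000 * K)
    rw [le_div_iff₀ hd4, mul_comm]
    linarith
  calc P.real {ω | ε < ‖polygon M (fun i => S i ω) - interp N (polygon M (fun i => S i ω))‖}
      ≤ P.real (⋃ i ∈ Finset.range N, {ω | δ ^ 4 ≤ mx S (A i) (L i) ω}) :=
        measureReal_mono hsub (measure_ne_top _ _)
    _ ≤ ∑ i ∈ Finset.range N, P.real {ω | δ ^ 4 ≤ mx S (A i) (L i) ω} :=
        measureReal_biUnion_finset_le _ _
    _ ≤ ∑ i ∈ Finset.range N, 100000 * K * ((3 / N : ℝ) * √(3 / N)) / δ ^ 4 :=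
        Finset.sum_le_sum hbound
    _ = 300000 * K * √(3 / N) / δ ^ 4 := by
        rw [Finset.sum_const, Finset.card_range, nsmul_eq_mul]
        field_simp
        ring
    _ ≤ η := by
        have h1 : √(3 / N : ℝ) ≤ κ := by
          rw [Real.sqrt_le_iff]
          refine ⟨hκ0.le, ?_⟩
          have h2 : (N1 : ℝ) ≤ N := by exact_mod_cast (le_max_left _ _).trans hN
          rw [div_le_iff₀ hN']
          rw [div_lt_iff₀ (by positivity)] at hN1
          nlinarith [sq_nonneg κ, mul_le_mul_of_nonneg_right h2 (sq_nonneg κ)]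
        rw [div_le_iff₀ (by positivity)]
        have h2 := mul_le_mul_of_nonneg_left h1 (by positivity : (0 : ℝ) ≤ 300000 * K)
        refine h2.trans (le_of_eq ?_)
        rw [hκ, hδ]
        field_simp

end Pool.Agent.U293.LB.TIGHT
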